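import Pool.Agent.Helper43.K4.Resid
import Pool.Agent.Helper9.K4.A1

/-! K4, block A3. -/

set_option autoImplicit false

open Matrix H77MT Pool.Agent.Helper79.KN Pool.Agent.Helper61.K4

namespace Pool.Agent.Helper43.K4

variable {Γ X n K : Type} [Group Γ] [DecidableEq X] [Fintype X] [Fintype n] [DecidableEq n] [Field K]

/-- A3 (no link between different classes at `r`) -/
theorem not_link_resid [CharZero K] (O : ValuationSubring K) {ρ : Rep Γ X n K} (h4 : 4 < Fintype.card n)
    (hchar : ∀ k : ℕ, 0 < k → k ≤ Fintype.card n → (k : IsLocalRing.ResidueField O) ≠ 0) {Δ : Subgroup Γ}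
    (hn : Δ.Normal) {x x' : X}
    (hint' : ∀ γ a b, (ρ x' γ : Matrix n n K) a b ∈ O)
    (hb : ∀ c : Matrix n n K, c.trace = 0 → ∃ a ∈ fam ρ Δ, a x = c)
    {y z : Matrix n n (IsLocalRing.ResidueField O)} (hy : y * y = 0) (hz : z * z = 0) (hyz : (y * z).trace ≠ 0)
    (hγ : ∀ w : Matrix n n (IsLocalRing.ResidueField O), w = y ∨ w = z → ∃ (γ : Γ) (M M' : Matrix n n O),
      (ρ x γ : Matrix n n K) = M.map (algebraMap O K) ∧ M.map (IsLocalRing.residue O) = 1 + w ∧
      (ρ x' γ : Matrix n n K) = M'.map (algebraMap O K) ∧ M'.map (IsLocalRing.residue O) = 1) :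
    ¬ IsLink (fam ρ Δ) x x' := fun h =>
  not_linked O h4 hchar hint' hy hz hyz hγ (Pool.Agent.Helper9.K4.link_group hn (by omega) hb h)

end Pool.Agent.Helper43.K4
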