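import Pool.Agent.Helper61.K4.Defs

/-!
K4, block A3: the residual representations of different classes exclude a link of the Galois representations.
-/

set_option autoImplicit false

open Matrix H77MT Pool.Agent.Helper79.KN

namespace Pool.Agent.Helper43.K4

section field
variable {n F : Type*} [Fintype n] [DecidableEq n] [Field F]

theorem trace_sq {y : Matrix n n F} (hy : y * y = 0) : y.trace = 0 := by
  have h1 : IsNilpotent y := ⟨2, by rw [pow_two, hy]⟩
  exact (Matrix.isNilpotent_trace_of_isNilpotent h1).eq_zero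

theorem det_sq {y : Matrix n n F} (hy : y * y = 0) : (1 + y).det = 1 := by
  have h1 : IsNilpotent (-y) := ⟨2, by rw [pow_two, neg_mul_neg, hy]⟩
  have h2 := (Matrix.isNilpotent_charpoly_sub_pow_of_isNilpotent h1).eq_zero
  have h3 := congrArg (Polynomial.eval 1) (sub_eq_zero.1 h2)
  rw [Matrix.eval_charpoly, Polynomial.eval_pow, Polynomial.eval_X, one_pow] at h3
  rw [← h3]
  simp

theorem pow_sq {z : Matrix n n F} (hz : z * z = 0) (c : ℕ) : (1 + z) ^ c = 1 + (c : F) • z := by
  induction c with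
  | zero => simp
  | succ c ih =>
    rw [pow_succ, ih, add_mul, one_mul, mul_add, mul_one, smul_mul_assoc, hz, smul_zero, add_zero, Nat.cast_add,
      Nat.cast_one, add_smul, one_smul]
    abel

theorem trace_prod {y z : Matrix n n F} (hy : y * y = 0) (hz : z * z = 0) (c : ℕ) :
    ((1 + y) * (1 + z) ^ c).trace = Fintype.card n + c * (y * z).trace := by
  rw [pow_sq hz, add_mul, one_mul, mul_add, mul_one, trace_add, trace_add, trace_add, trace_one, trace_smul,
    mul_smul_comm, trace_smul, trace_sq hy, trace_sq hz, smul_zero, add_zero, zero_add, smul_eq_mul]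

theorem det_prod {y z : Matrix n n F} (hy : y * y = 0) (hz : z * z = 0) (c : ℕ) :
    ((1 + y) * (1 + z) ^ c).det = 1 := by
  rw [det_mul, det_pow, det_sq hy, det_sq hz, one_pow, one_mul]

/-- A polynomial of degree `N` has at most `N` zeros. -/
theorem no_poly {N : ℕ} (hN : 0 < N) (hchar : ∀ k : ℕ, 0 < k → k ≤ N → (k : F) ≠ 0) {τ : F} (hτ : τ ≠ 0)
    (h : ∀ c : ℕ, ((N : F) + c * τ) ^ N = (N : F) ^ N) : False := by
  have hinj : Function.Injective fun c : Fin (N + 1) => ((c : ℕ) : F) := by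
    intro a b hab
    have hab' : ((a : ℕ) : F) = ((b : ℕ) : F) := hab
    rcases lt_trichotomy (a : ℕ) (b : ℕ) with h1 | h1 | h1
    · exfalso
      refine hchar (b - a) (by omega) (by omega) ?_
      rw [Nat.cast_sub h1.le, hab', sub_self]
    · exact Fin.ext h1
    · exfalso
      refine hchar (a - b) (by omega) (by omega) ?_
      rw [Nat.cast_sub h1.le, hab', sub_self]
  have hdeg : ((Polynomial.C τ * Polynomial.X + Polynomial.C (N : F)) ^ N).natDegree = N := by
    rw [Polynomial.natDegree_pow, Polynomial.natDegree_linear hτ, mul_one]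
  have h0 := Polynomial.eq_zero_of_natDegree_lt_card_of_eval_eq_zero
    ((Polynomial.C τ * Polynomial.X + Polynomial.C (N : F)) ^ N - Polynomial.C ((N : F) ^ N)) hinj
    (fun c => by
      rw [Polynomial.eval_sub, Polynomial.eval_pow, Polynomial.eval_add, Polynomial.eval_mul, Polynomial.eval_C,
        Polynomial.eval_X, Polynomial.eval_C, Polynomial.eval_C, sub_eq_zero, ← h (c : ℕ)]
      congr 1
      ring)
    (by
      rw [Fintype.card_fin]
      exact Nat.lt_succ_of_le ((Polynomial.natDegree_sub_C).trans hdeg).le)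
  rw [sub_eq_zero] at h0
  rw [h0, Polynomial.natDegree_C] at hdeg
  omega

end field

section
variable {Γ X n K : Type} [Group Γ] [Fintype n] [DecidableEq n] [Field K]

/-- `A` is the reduction of the matrix of `γ`. -/
def Rd (O : ValuationSubring K) (ρ : Rep Γ X n K) (x : X) (γ : Γ) (A : Matrix n n (IsLocalRing.ResidueField O)) :
    Prop :=
  ∃ M : Matrix n n O, (ρ x γ : Matrix n n K) = M.map (algebraMap O K) ∧ M.map (IsLocalRing.residue O) = A

variable {O : ValuationSubring K} {ρ : Rep Γ X n K} {x : X}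

theorem Rd.mul {γ γ' : Γ} {A A' : Matrix n n (IsLocalRing.ResidueField O)} (h : Rd O ρ x γ A) (h' : Rd O ρ x γ' A') :
    Rd O ρ x (γ * γ') (A * A') := by
  obtain ⟨M, h1, h2⟩ := h
  obtain ⟨M', h1', h2'⟩ := h'
  refine ⟨M * M', ?_, ?_⟩
  · rw [map_mul, Units.val_mul, h1, h1', Matrix.map_mul]
  · rw [Matrix.map_mul, h2, h2']

theorem Rd.one : Rd O ρ x 1 (1 : Matrix n n (IsLocalRing.ResidueField O)) := by
  refine ⟨1, ?_, ?_⟩
  · rw [map_one, Units.val_one, Matrix.map_one _ (map_zero _) (map_one _)]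
  · rw [Matrix.map_one _ (map_zero _) (map_one _)]

theorem Rd.pow {γ : Γ} {A : Matrix n n (IsLocalRing.ResidueField O)} (h : Rd O ρ x γ A) (c : ℕ) :
    Rd O ρ x (γ ^ c) (A ^ c) := by
  induction c with
  | zero =>
    rw [pow_zero, pow_zero]
    exact Rd.one
  | succ c ih =>
    rw [pow_succ, pow_succ]
    exact ih.mul h

theorem Rd.inv {γ : Γ} (h : Rd O ρ x γ (1 : Matrix n n (IsLocalRing.ResidueField O)))
    (hint : ∀ γ a b, (ρ x γ : Matrix n n K) a b ∈ O) : Rd O ρ x γ⁻¹ (1 : Matrix n n (IsLocalRing.ResidueField O)) := by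
  obtain ⟨M, h1, h2⟩ := h
  let N₀ : Matrix n n O := Matrix.of fun a b => ⟨(ρ x γ⁻¹ : Matrix n n K) a b, hint γ⁻¹ a b⟩
  have hN₀ : (ρ x γ⁻¹ : Matrix n n K) = N₀.map (algebraMap O K) := by
    ext a b
    rfl
  refine ⟨N₀, hN₀, ?_⟩
  have hinj : Function.Injective (fun M : Matrix n n O => M.map (algebraMap O K)) :=
    Matrix.map_injective (IsFractionRing.injective O K)
  have h3 : M * N₀ = 1 := by
    apply hinj
    show (M * N₀).map (algebraMap O K) = (1 : Matrix n n O).map (algebraMap O K)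
    rw [Matrix.map_mul, ← h1, ← hN₀, Matrix.map_one _ (map_zero _) (map_one _), ← Units.val_mul, ← map_mul,
      mul_inv_cancel, map_one, Units.val_one]
  have h4 := congrArg (fun M => M.map (IsLocalRing.residue O)) h3
  simp only [Matrix.map_mul, h2, one_mul] at h4
  rw [h4, Matrix.map_one _ (map_zero _) (map_one _)]

/-- Traces and determinants. -/
theorem Rd.key {x' : X} {γ γ' : Γ} {A A' : Matrix n n (IsLocalRing.ResidueField O)} (h : Rd O ρ x γ A)
    (h' : Rd O ρ x' γ' A') (he : (ρ x' γ' : Matrix n n K).trace ^ Fintype.card n * (ρ x γ : Matrix n n K).det =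
      (ρ x' γ' : Matrix n n K).det * (ρ x γ : Matrix n n K).trace ^ Fintype.card n) :
    A'.trace ^ Fintype.card n * A.det = A'.det * A.trace ^ Fintype.card n := by
  obtain ⟨M, h1, rfl⟩ := h
  obtain ⟨M', h1', rfl⟩ := h'
  have e1 : ∀ (P : Matrix n n O), (P.map (algebraMap O K)).trace = algebraMap O K P.trace := fun P =>
    (AddMonoidHom.map_trace (algebraMap O K) P).symm
  have e2 : ∀ (P : Matrix n n O), (P.map (algebraMap O K)).det = algebraMap O K P.det := fun P =>
    (RingHom.map_det (algebraMap O K) P).symm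
  have e3 : ∀ (P : Matrix n n O), (P.map (IsLocalRing.residue O)).trace = IsLocalRing.residue O P.trace := fun P =>
    (AddMonoidHom.map_trace (IsLocalRing.residue O) P).symm
  have e4 : ∀ (P : Matrix n n O), (P.map (IsLocalRing.residue O)).det = IsLocalRing.residue O P.det := fun P =>
    (RingHom.map_det (IsLocalRing.residue O) P).symm
  rw [h1, h1', e1, e1, e2, e2, ← map_pow, ← map_pow, ← map_mul, ← map_mul] at he
  have h3 := IsFractionRing.injective O K he
  rw [e3, e3, e4, e4, ← map_pow, ← map_pow, ← map_mul, ← map_mul, h3]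

theorem not_linked (O : ValuationSubring K) {ρ : Rep Γ X n K} (h4 : 4 < Fintype.card n)
    (hchar : ∀ k : ℕ, 0 < k → k ≤ Fintype.card n → (k : IsLocalRing.ResidueField O) ≠ 0) {x x' : X}
    (hint' : ∀ γ a b, (ρ x' γ : Matrix n n K) a b ∈ O)
    {y z : Matrix n n (IsLocalRing.ResidueField O)} (hy : y * y = 0) (hz : z * z = 0) (hyz : (y * z).trace ≠ 0)
    (hγ : ∀ w : Matrix n n (IsLocalRing.ResidueField O), w = y ∨ w = z → ∃ (γ : Γ) (M M' : Matrix n n O),
      (ρ x γ : Matrix n n K) = M.map (algebraMap O K) ∧ M.map (IsLocalRing.residue O) = 1 + w ∧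
      (ρ x' γ : Matrix n n K) = M'.map (algebraMap O K) ∧ M'.map (IsLocalRing.residue O) = 1) :
    ¬ ∃ T : Matrix n n K, IsUnit T.det ∧
      ((∀ γ, ∃ l : K, l ≠ 0 ∧ (ρ x' γ : Matrix n n K) * T = l • (T * (ρ x γ : Matrix n n K))) ∨
        ∀ γ, ∃ l : K, l ≠ 0 ∧ (ρ x' γ : Matrix n n K)ᵀ * T = l • (T * (ρ x γ⁻¹ : Matrix n n K))) := by
  rintro ⟨T, hT, hl⟩
  obtain ⟨γy, My, My', hy1, hy2, hy3, hy4⟩ := hγ y (Or.inl rfl)
  obtain ⟨γz, Mz, Mz', hz1, hz2, hz3, hz4⟩ := hγ z (Or.inr rfl)
  have hTu : T * T⁻¹ = 1 := Matrix.mul_nonsing_inv T hT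
  have hTu' : T⁻¹ * T = 1 := Matrix.nonsing_inv_mul T hT
  have hTd : T.det ≠ 0 := hT.ne_zero
  -- an equation gives equations for traces and determinants
  have tr : ∀ (P Q : Matrix n n K) (l : K), P * T = l • (T * Q) →
      P.trace ^ Fintype.card n * Q.det = P.det * Q.trace ^ Fintype.card n := by
    intro P Q l hPQ
    have h1 : P.trace = l * Q.trace := by
      have h2 : P = l • (T * Q * T⁻¹) := by
        rw [← smul_mul_assoc, ← hPQ, mul_assoc, hTu, mul_one]
      rw [h2, trace_smul, trace_mul_cycle, hTu', one_mul, smul_eq_mul]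
    have h3 : P.det = l ^ Fintype.card n * Q.det := by
      have h2 := congrArg Matrix.det hPQ
      rw [det_mul, det_smul, det_mul] at h2
      apply mul_right_cancel₀ hTd
      rw [h2]
      ring
    rw [h1, h3]
    ring
  have main : ∀ c : ℕ, ∃ γ γ' : Γ, Rd O ρ x γ ((1 + y) * (1 + z) ^ c) ∧
      Rd O ρ x' γ' (1 : Matrix n n (IsLocalRing.ResidueField O)) ∧
      (ρ x' γ' : Matrix n n K).trace ^ Fintype.card n * (ρ x γ : Matrix n n K).det =
      (ρ x' γ' : Matrix n n K).det * (ρ x γ : Matrix n n K).trace ^ Fintype.card n := by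
    intro c
    have ha : Rd O ρ x (γy * γz ^ c) ((1 + y) * (1 + z) ^ c) :=
      Rd.mul ⟨My, hy1, hy2⟩ (Rd.pow ⟨Mz, hz1, hz2⟩ c)
    have hb : Rd O ρ x' (γy * γz ^ c) (1 : Matrix n n (IsLocalRing.ResidueField O)) := by
      have := Rd.mul (ρ := ρ) (x := x') ⟨My', hy3, hy4⟩ (Rd.pow (ρ := ρ) (x := x') ⟨Mz', hz3, hz4⟩ c)
      rwa [one_pow, one_mul] at this
    rcases hl with hl | hl
    · obtain ⟨l, -, h1⟩ := hl (γy * γz ^ c)
      exact ⟨_, _, ha, hb, tr _ _ l h1⟩
    · obtain ⟨l, -, h1⟩ := hl (γy * γz ^ c)⁻¹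
      rw [inv_inv] at h1
      refine ⟨_, _, ha, hb.inv hint', ?_⟩
      have h2 := tr _ _ l h1
      rwa [trace_transpose, det_transpose] at h2
  refine no_poly (by omega) hchar hyz fun c => ?_
  obtain ⟨γ, γ', h1, h2, h3⟩ := main c
  have h5 := h1.key h2 h3
  rw [trace_one, det_one, det_prod hy hz, trace_prod hy hz, mul_one, one_mul] at h5
  exact h5.symm

end

end Pool.Agent.Helper43.K4
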